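import Pool.Agent.Helper61.QT.GoalsG

/-!
# Project SW (MP_0ebdb3_gt): the curvature number of a metric of the plane, and of metrics of neck type
-/

set_option autoImplicit false

open Set

namespace Pool.Agent.Helper34.SW

open Pool.Agent.Helper61 Pool.Agent.Helper61.QT

theorem fd_dec (W : ℝ × ℝ → ℝ) (z x : ℝ × ℝ) :
    fderiv ℝ W z x = x.1 * d1 W z + x.2 * d2 W z := by
  have h : x = x.1 • ((1, 0) : ℝ × ℝ) + x.2 • ((0, 1) : ℝ × ℝ) := by
    ext <;> simp
  conv_lhs => rw [h]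
  rw [map_add, map_smul, map_smul]
  rfl

theorem fd_lin {U W : ℝ × ℝ → ℝ} (hU : Differentiable ℝ U) (hW : Differentiable ℝ W) (p q : ℝ)
    {f : ℝ × ℝ → ℝ} (hf : ∀ y, f y = p * U y + q * W y) (z a : ℝ × ℝ) :
    fderiv ℝ f z a = p * fderiv ℝ U z a + q * fderiv ℝ W z a := by
  have h1 : HasFDerivAt (fun y => p * U y + q * W y) (p • fderiv ℝ U z + q • fderiv ℝ W z) z :=
    ((hU z).hasFDerivAt.const_mul p).add ((hW z).hasFDerivAt.const_mul q)
  have h2 : f = fun y => p * U y + q * W y := funext hf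
  rw [h2, h1.fderiv]
  rfl

/-- the vector with given products -/
theorem solve2 {e f g : ℝ} (hD : 0 < e * g - f ^ 2) (p q : ℝ) :
    ∃ c : ℝ × ℝ, c.1 * e + c.2 * f = p ∧ c.1 * f + c.2 * g = q := by
  have hne : e * g - f ^ 2 ≠ 0 := hD.ne'
  refine ⟨((g * p - f * q) / (e * g - f ^ 2), (e * q - f * p) / (e * g - f ^ 2)), ?_, ?_⟩
  · simp only []
    rw [div_mul_eq_mul_div, div_mul_eq_mul_div, ← add_div, div_eq_iff hne]
    ring
  · simp only []
    rw [div_mul_eq_mul_div, div_mul_eq_mul_div, ← add_div, div_eq_iff hne]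
    ring

/-- the curvature number of `E dr² + 2 F dr ds + G ds²` -/
theorem curv2 {g : ℝ × ℝ → ℝ × ℝ → ℝ × ℝ → ℝ} {E F G : ℝ × ℝ → ℝ}
    (hg : ∀ z u v, g z u v = u.1 * v.1 * E z + (u.1 * v.2 + u.2 * v.1) * F z + u.2 * v.2 * G z)
    (hE : ContDiff ℝ 2 E) (hF : ContDiff ℝ 2 F) (hG : ContDiff ℝ 2 G)
    (hpos : ∀ z, 0 < E z ∧ 0 < E z * G z - F z ^ 2) (z : ℝ × ℝ) :
    QM.IsCurv g z (1, 0) (0, 1) (kap2 E F G z) := by
  have dE : Differentiable ℝ E := hE.differentiable (by norm_num)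
  have dF : Differentiable ℝ F := hF.differentiable (by norm_num)
  have dG : Differentiable ℝ G := hG.differentiable (by norm_num)
  have hD := (hpos z).2
  -- derivatives of the coefficients
  have r1 : ∀ (x z a : ℝ × ℝ), fderiv ℝ (fun y => g y (1, 0) x) z a =
      x.1 * fderiv ℝ E z a + x.2 * fderiv ℝ F z a := fun x z a =>
    fd_lin dE dF x.1 x.2 (fun y => by rw [hg]; simp only []; ring) z a
  have r2 : ∀ (x z a : ℝ × ℝ), fderiv ℝ (fun y => g y (0, 1) x) z a =
      x.1 * fderiv ℝ F z a + x.2 * fderiv ℝ G z a := fun x z a =>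
    fd_lin dF dG x.1 x.2 (fun y => by rw [hg]; simp only []; ring) z a
  have g1 : ∀ x : ℝ × ℝ, QM.Gam g z (1, 0) (0, 1) x =
      x.1 * (d2 E z / 2) + x.2 * (d1 G z / 2) := by
    intro x
    unfold QM.Gam
    rw [r2, r1, r1, fd_dec E z x, fd_dec F z x]
    simp only [d1, d2]
    ring
  have g2 : ∀ x : ℝ × ℝ, QM.Gam g z (1, 0) (1, 0) x =
      x.1 * (d1 E z / 2) + x.2 * (d1 F z - d2 E z / 2) := by
    intro x
    unfold QM.Gam
    rw [r1, r1, fd_dec E z x, fd_dec F z x]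
    simp only [d1, d2]
    ring
  have g3 : ∀ x : ℝ × ℝ, QM.Gam g z (0, 1) (0, 1) x =
      x.1 * (d2 F z - d1 G z / 2) + x.2 * (d2 G z / 2) := by
    intro x
    unfold QM.Gam
    rw [r2, r2, fd_dec F z x, fd_dec G z x]
    simp only [d1, d2]
    ring
  obtain ⟨cab, ab1, ab2⟩ := solve2 hD (d2 E z / 2) (d1 G z / 2)
  obtain ⟨caa, aa1, aa2⟩ := solve2 hD (d1 E z / 2) (d1 F z - d2 E z / 2)
  obtain ⟨cbb, bb1, bb2⟩ := solve2 hD (d2 F z - d1 G z / 2) (d2 G z / 2)
  refine ⟨cab, caa, cbb, fun x => ?_, fun x => ?_, fun x => ?_, ?_⟩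
  · rw [g1, hg, ← ab1, ← ab2]
    ring
  · rw [g2, hg, ← aa1, ← aa2]
    ring
  · rw [g3, hg, ← bb1, ← bb2]
    ring
  · have f1 : QM.dd (fun y => g y (0, 1) (0, 1)) z (1, 0) (1, 0) = d1 (d1 G) z := by
      unfold QM.dd
      have : (fun y => fderiv ℝ (fun y => g y (0, 1) (0, 1)) y (1, 0)) = d1 G := by
        funext y
        rw [r2, fd_dec F, fd_dec G]
        simp
      rw [this]
      rfl
    have f2 : QM.dd (fun y => g y (1, 0) (1, 0)) z (0, 1) (0, 1) = d2 (d2 E) z := by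
      unfold QM.dd
      have : (fun y => fderiv ℝ (fun y => g y (1, 0) (1, 0)) y (0, 1)) = d2 E := by
        funext y
        rw [r1, fd_dec E, fd_dec F]
        simp
      rw [this]
      rfl
    have f3 : QM.dd (fun y => g y (1, 0) (0, 1)) z (1, 0) (0, 1) = d1 (d2 F) z := by
      unfold QM.dd
      have : (fun y => fderiv ℝ (fun y => g y (1, 0) (0, 1)) y (0, 1)) = d2 F := by
        funext y
        rw [r1, fd_dec E, fd_dec F]
        simp
      rw [this]
      rfl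
    have v1 : g z cab cab = (G z * (d2 E z / 2) * (d2 E z / 2) -
        F z * ((d2 E z / 2) * (d1 G z / 2) + (d1 G z / 2) * (d2 E z / 2)) +
        E z * (d1 G z / 2) * (d1 G z / 2)) / (E z * G z - F z ^ 2) := by
      rw [eq_div_iff hD.ne', hg, ← ab1, ← ab2]
      ring
    have v2 : g z caa cbb = (G z * (d1 E z / 2) * (d2 F z - d1 G z / 2) -
        F z * ((d1 E z / 2) * (d2 G z / 2) + (d1 F z - d2 E z / 2) * (d2 F z - d1 G z / 2)) +
        E z * (d1 F z - d2 E z / 2) * (d2 G z / 2)) / (E z * G z - F z ^ 2) := by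
      rw [eq_div_iff hD.ne', hg, ← aa1, ← aa2, ← bb1, ← bb2]
      ring
    rw [f1, f2, f3, v1, v2]
    unfold kap2
    have hne := hD.ne'
    field_simp
    ring

section neck

open Pool.Agent.Helper61.QS (R4 IsCurv Gam dd)

/-- a differentiable function that is constant along a line has derivative zero -/
theorem fd_line {f : R4 → ℝ} {x w : R4} (hf : DifferentiableAt ℝ f x)
    (h : ∀ t : ℝ, f (x + t • w) = f x) : fderiv ℝ f x w = 0 := by
  have h1 := hf.lineDeriv_eq_fderiv (v := w)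
  rw [← h1, lineDeriv]
  have h2 : (fun t : ℝ => f (x + t • w)) = fun _ => f x := funext h
  rw [h2, deriv_const]

/-- metrics of neck type -/
structure NeckG (h : R4 → R4 →L[ℝ] R4 →L[ℝ] ℝ) (u v : R4) (l : R4 →L[ℝ] ℝ) (ψ : ℝ → ℝ) : Prop where
  df : ∀ c d, Differentiable ℝ (fun y => h y c d)
  symm : ∀ x c d, h x c d = h x d c
  lu : l u = 1
  lv : l v = 0
  hu : ∀ x c, h x u c = ψ (l x) * l c
  hv : ∀ (x c : R4) (t : ℝ), h (x + t • u) v c = h x v c

variable {h : R4 → R4 →L[ℝ] R4 →L[ℝ] ℝ} {u v : R4} {l : R4 →L[ℝ] ℝ} {ψ : ℝ → ℝ}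

namespace NeckG

theorem du (H : NeckG h u v l ψ) (x c w : R4) (hw : l w = 0) :
    fderiv ℝ (fun y => h y u c) x w = 0 := by
  refine fd_line (H.df u c x) fun t => ?_
  rw [H.hu, H.hu, map_add, map_smul, hw, smul_zero, add_zero]

theorem dv (H : NeckG h u v l ψ) (x c : R4) : fderiv ℝ (fun y => h y v c) x u = 0 :=
  fd_line (H.df v c x) fun t => H.hv x c t

theorem duw (H : NeckG h u v l ψ) (x c w : R4) :
    fderiv ℝ (fun y => h y u c) x w = l w * (l c * fderiv ℝ (fun y => h y u u) x u) := by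
  have e1 : w = (w - l w • u) + l w • u := by abel
  have e2 : l (w - l w • u) = 0 := by
    rw [map_sub, map_smul, H.lu, smul_eq_mul, mul_one, sub_self]
  have e3 : (fun y => h y u c) = fun y => l c * h y u u := by
    funext y
    rw [H.hu, H.hu, H.lu]
    ring
  have e4 : fderiv ℝ (fun y => h y u c) x u = l c * fderiv ℝ (fun y => h y u u) x u := by
    rw [e3, fderiv_const_mul (H.df u u x)]
    rfl
  conv_lhs => rw [e1]
  rw [map_add, H.du x c _ e2, zero_add, map_smul, e4]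
  rfl

theorem huv (H : NeckG h u v l ψ) (x : R4) : h x u v = 0 := by
  rw [H.hu, H.lv, mul_zero]

theorem hvu (H : NeckG h u v l ψ) (x : R4) : h x v u = 0 := by
  rw [H.symm, H.huv]

theorem duv (H : NeckG h u v l ψ) (x w : R4) : fderiv ℝ (fun y => h y u v) x w = 0 := by
  have : (fun y => h y u v) = fun _ => (0 : ℝ) := funext H.huv
  rw [this]
  simp

theorem dvu (H : NeckG h u v l ψ) (x w : R4) : fderiv ℝ (fun y => h y v u) x w = 0 := by
  have : (fun y => h y v u) = fun _ => (0 : ℝ) := funext H.hvu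
  rw [this]
  simp

theorem gvu (H : NeckG h u v l ψ) (x c : R4) : Gam h x v u c = 0 := by
  unfold Gam
  rw [H.du x c v H.lv, H.dv x c, H.dvu]
  norm_num

theorem guv (H : NeckG h u v l ψ) (x c : R4) : Gam h x u v c = 0 := by
  unfold Gam
  rw [H.du x c v H.lv, H.dv x c, H.duv]
  norm_num

theorem gvvu (H : NeckG h u v l ψ) (x : R4) : Gam h x v v u = 0 := by
  unfold Gam
  rw [H.dvu, H.dv]
  norm_num

theorem guu (H : NeckG h u v l ψ) (x c : R4) :
    Gam h x u u c = l c * fderiv ℝ (fun y => h y u u) x u / 2 := by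
  unfold Gam
  rw [H.duw x c u, H.duw x u c, H.lu]
  ring

/-- the number `g(∇_v v, ∇_u u)` vanishes -/
theorem cross (H : NeckG h u v l ψ) (x : R4) (hψ : ψ (l x) ≠ 0) {cv cu : R4}
    (h1 : ∀ c, h x cv c = Gam h x v v c) (h2 : ∀ c, h x cu c = Gam h x u u c) :
    h x cu cv = 0 := by
  have e1 : ψ (l x) * l cv = 0 := by
    rw [← H.hu, H.symm, h1, H.gvvu]
  have e2 : l cv = 0 := (mul_eq_zero.1 e1).resolve_left hψ
  rw [h2, H.guu, e2]
  ring

theorem dd1 (H : NeckG h u v l ψ) (x : R4) : dd (fun y => h y u u) x v v = 0 := by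
  unfold dd
  have : (fun y => fderiv ℝ (fun y => h y u u) y v) = fun _ => (0 : ℝ) :=
    funext fun y => H.du y u v H.lv
  rw [this]
  simp

theorem dd2 (H : NeckG h u v l ψ) (x : R4) : dd (fun y => h y v v) x u u = 0 := by
  unfold dd
  have : (fun y => fderiv ℝ (fun y => h y v v) y u) = fun _ => (0 : ℝ) :=
    funext fun y => H.dv y v
  rw [this]
  simp

theorem dd3 (H : NeckG h u v l ψ) (x a b : R4) : dd (fun y => h y u v) x a b = 0 := by
  unfold dd
  have : (fun y => fderiv ℝ (fun y => h y u v) y b) = fun _ => (0 : ℝ) :=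
    funext fun y => H.duv y b
  rw [this]
  simp

theorem dd4 (H : NeckG h u v l ψ) (x a b : R4) : dd (fun y => h y v u) x a b = 0 := by
  unfold dd
  have : (fun y => fderiv ℝ (fun y => h y v u) y b) = fun _ => (0 : ℝ) :=
    funext fun y => H.dvu y b
  rw [this]
  simp

theorem curv_vu (H : NeckG h u v l ψ) (x : R4) (hψ : ψ (l x) ≠ 0) (K : ℝ)
    (hK : IsCurv h x v u K) : K = 0 := by
  obtain ⟨cab, caa, cbb, hab, haa, hbb, rfl⟩ := hK
  rw [H.dd1, H.dd2, H.dd4, hab, H.gvu, H.symm x caa cbb, H.cross x hψ haa hbb]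
  norm_num

theorem curv_uv (H : NeckG h u v l ψ) (x : R4) (hψ : ψ (l x) ≠ 0) (K : ℝ)
    (hK : IsCurv h x u v K) : K = 0 := by
  obtain ⟨cab, caa, cbb, hab, haa, hbb, rfl⟩ := hK
  rw [H.dd1, H.dd2, H.dd3, hab, H.guv, H.cross x hψ hbb haa]
  norm_num

end NeckG

end neck

end Pool.Agent.Helper34.SW
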