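import Pool.Agent.Helper34.SW.Polar

/-!
# Project SW (MP_0ebdb3_gt): the data of the ODE part in twisted polar coordinates

The proof is that of `Pool/Agent/Helper39/QT/DTP.lean`, with the flatness given in the twisted
coordinates.
-/

set_option autoImplicit false

open Set ComplexConjugate

namespace Pool.Agent.Helper34.SW

open Pool.Agent.Helper61 Pool.Agent.Helper61.QG Pool.Agent.Helper61.QT
open Pool.Agent.Helper61.QS (V En rk R4)
open Pool.Agent.Helper61.QM (Model W2 Mab pol2 act2)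

/-- the data -/
theorem datS (hPL : G_PL2) (a b : ℤ) (hab : b = 0 ∨ (a = 1 ∧ b = 2)) (k n : ℕ) (e : W2 → En n)
    (B : W2 → W2 →L[ℝ] En n) (φ : ℝ × ℝ → ℝ × ℝ) (hB : IsBundle (Mab a b) k e B)
    (hφ : ContDiff ℝ 3 φ) (hF : ∀ x ∈ Reg2, FG B (psh φ) x * e (psh φ x) = 0) :
    Dat2 a b (fun x => e (psh φ x)) (bG B (psh φ)) (cG B (psh φ)) := by
  have hab1 : a * b ≠ 1 := by
    rcases hab with h | ⟨h1, h2⟩
    · rw [h, mul_zero]
      norm_num
    · rw [h1, h2]
      norm_num
  obtain ⟨hpol, hfd⟩ := hPL a b hab1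
  have hsm := hpol.smooth
  have hX := hpol.mem
  have hT := hpol.tan
  let Ar : ℝ × ℝ → ℝ × ℝ := fun z => -fderiv ℝ φ z (1, 0)
  let As : ℝ × ℝ → ℝ × ℝ := fun z => -fderiv ℝ φ z (0, 1)
  have hA : ∀ z, fderiv ℝ φ z (1, 0) = -Ar z ∧ fderiv ℝ φ z (0, 1) = -As z :=
    fun z => ⟨(neg_neg _).symm, (neg_neg _).symm⟩
  have hpsh : ContDiff ℝ 2 (psh φ) :=
    ((isPolar hPL hab1 hφ).smooth).of_le (by norm_num)
  have hfpsh : ContDiff ℝ 1 (fderiv ℝ (psh φ)) := hpsh.fderiv_right (by norm_num)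
  have hBp : ContDiff ℝ 2 (fun x => B (psh φ x)) := (hB.smooth_B.of_le (by norm_num)).comp hpsh
  have hep : ContDiff ℝ 2 (fun x => e (psh φ x)) := (hB.smooth_e.of_le (by norm_num)).comp hpsh
  have hbb : ContDiff ℝ 1 (bG B (psh φ)) :=
    (hBp.of_le (by norm_num)).clm_apply (hfpsh.clm_apply contDiff_const)
  have hcc : ContDiff ℝ 1 (cG B (psh φ)) :=
    (hBp.of_le (by norm_num)).clm_apply (hfpsh.clm_apply contDiff_const)
  have hfp : ∀ x c, fderiv ℝ (psh φ) x c
      = fderiv ℝ pol2 (shr φ x) (dsh φ (x.1, x.2.1) c) := psh_fderiv hsm hφ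
  have hd1 : ∀ z, dsh φ z (1, 0, 0, 0) = (1, 0, -(Ar z).1, -(Ar z).2) := by
    intro z
    simp [dsh, (hA z).1]
  have hd2 : ∀ z, dsh φ z (0, 1, 0, 0) = (0, 1, -(As z).1, -(As z).2) := by
    intro z
    simp [dsh, (hA z).2]
  have hXp : ∀ x, psh φ x ∈ (Mab a b).X := fun x => hX _
  have hTp : ∀ x c, fderiv ℝ (psh φ) x c ∈ (Mab a b).T (psh φ x) := by
    intro x c
    rw [hfp]
    exact hT _ _
  have hchain : ∀ x c, fderiv ℝ (fun x => e (psh φ x)) x c =
      B (psh φ x) (fderiv ℝ (psh φ) x c) * e (psh φ x)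
        - e (psh φ x) * B (psh φ x) (fderiv ℝ (psh φ) x c) := by
    intro x c
    have h1 : fderiv ℝ (fun x => e (psh φ x)) x
        = (fderiv ℝ e (psh φ x)).comp (fderiv ℝ (psh φ) x) := by
      apply fderiv_comp x
      · exact (hB.smooth_e.differentiable (by norm_num)) _
      · exact (hpsh.differentiable (by norm_num)) _
    rw [h1, ContinuousLinearMap.comp_apply, hB.par _ (hXp x) _ (hTp x c)]
  have hb' : ∀ x, bG B (psh φ) x
      = B (pol2 (shr φ x)) (fderiv ℝ pol2 (shr φ x) (1, 0, -(Ar (x.1, x.2.1)).1,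
        -(Ar (x.1, x.2.1)).2)) := by
    intro x
    unfold bG
    rw [hfp, hd1]
    rfl
  have hc' : ∀ x, cG B (psh φ) x
      = B (pol2 (shr φ x)) (fderiv ℝ pol2 (shr φ x) (0, 1, -(As (x.1, x.2.1)).1,
        -(As (x.1, x.2.1)).2)) := by
    intro x
    unfold cG
    rw [hfp, hd2]
    rfl
  have hexp : ∀ t : ℝ, Complex.exp (((t + 2 * Real.pi : ℝ) : ℂ) * Complex.I) =
      Complex.exp ((t : ℂ) * Complex.I) := by
    intro t
    push_cast
    rw [add_mul, Complex.exp_add, Complex.exp_two_pi_mul_I, mul_one]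
  have pα : ∀ r s α β : ℝ, pol2 (r, s, α + 2 * Real.pi, β) = pol2 (r, s, α, β) := by
    intro r s α β
    simp only [pol2]
    rw [hexp]
  have pβ : ∀ r s α β : ℝ, pol2 (r, s, α, β + 2 * Real.pi) = pol2 (r, s, α, β) := by
    intro r s α β
    simp only [pol2]
    rw [hexp]
  have fα : ∀ (r s α β : ℝ) (c : R4), fderiv ℝ pol2 (r, s, α + 2 * Real.pi, β) c =
      fderiv ℝ pol2 (r, s, α, β) c := by
    intro r s α β c
    rw [hfd, hfd]
    simp only
    rw [hexp]
  have fβ : ∀ (r s α β : ℝ) (c : R4), fderiv ℝ pol2 (r, s, α, β + 2 * Real.pi) c =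
      fderiv ℝ pol2 (r, s, α, β) c := by
    intro r s α β c
    rw [hfd, hfd]
    simp only
    rw [hexp]
  have hsh : ∀ r s α β : ℝ, shr φ (r, s, α, β) = (r, s, α + (φ (r, s)).1, β + (φ (r, s)).2) :=
    fun _ _ _ _ => rfl
  have sα : ∀ r s α β : ℝ, shr φ (r, s, α + 2 * Real.pi, β)
      = (r, s, α + (φ (r, s)).1 + 2 * Real.pi, β + (φ (r, s)).2) := by
    intro r s α β
    rw [hsh, add_right_comm]
  have sβ : ∀ r s α β : ℝ, shr φ (r, s, α, β + 2 * Real.pi)
      = (r, s, α + (φ (r, s)).1, β + (φ (r, s)).2 + 2 * Real.pi) := by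
    intro r s α β
    rw [hsh, add_right_comm β]
  refine
    { smε := hep.of_le (by norm_num)
      smp := hbb
      smq := hcc
      idem := fun x => hB.idem _ (hXp x)
      symm := fun x => hB.symm _ (hXp x)
      skp := fun x => hB.skew _ (hXp x) _ (hTp x _)
      skq := fun x => hB.skew _ (hXp x) _ (hTp x _)
      dr := fun x => hchain x _
      ds := fun x => hchain x _
      flat := ?_
      perα := ?_
      perβ := ?_
      r0 := ?_
      r1 := ?_
      s0 := ?_
      s1 := ?_ }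
  · have hcont : Continuous (fun x => FG B (psh φ) x * e (psh φ x)) := by
      have c1 : Continuous (fun x => fderiv ℝ (cG B (psh φ)) x (1, 0, 0, 0)) :=
        (hcc.continuous_fderiv (by norm_num)).clm_apply continuous_const
      have c2 : Continuous (fun x => fderiv ℝ (bG B (psh φ)) x (0, 1, 0, 0)) :=
        (hbb.continuous_fderiv (by norm_num)).clm_apply continuous_const
      have c3 := hbb.continuous
      have c4 := hcc.continuous
      have c5 := hep.continuous
      unfold FG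
      exact (((c1.sub c2).sub ((c3.mul c4).sub (c4.mul c3)))).mul c5
    have h0 : (fun x => FG B (psh φ) x * e (psh φ x)) = fun _ => 0 :=
      hcont.ext_on hpol.dense continuous_const hF
    intro x
    exact congrFun h0 x
  · intro r s α β
    refine ⟨?_, ?_, ?_⟩
    · show e (pol2 _) = e (pol2 _)
      rw [sα, pα, hsh]
    · rw [hb', hb', sα, pα, fα, hsh]
    · rw [hc', hc', sα, pα, fα, hsh]
  · intro r s α β
    refine ⟨?_, ?_, ?_⟩
    · show e (pol2 _) = e (pol2 _)
      rw [sβ, pβ, hsh]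
    · rw [hb', hb', sβ, pβ, fβ, hsh]
    · rw [hc', hc', sβ, pβ, fβ, hsh]
  · intro s α β
    have p0 : ∀ u v : ℝ, pol2 (0, s, u, β + v) = pol2 (0, s, 0, β + v) := by
      intro u v
      simp [pol2]
    have f0 : ∀ u v c3 c4 : ℝ, fderiv ℝ pol2 (0, s, u, β + v) (0, 1, c3, c4) =
        fderiv ℝ pol2 (0, s, 0, β + v) (0, 1, c3, c4) := by
      intro u v c3 c4
      rw [hfd, hfd]
      simp
    refine ⟨?_, ?_⟩
    · show e (pol2 _) = e (pol2 _)
      rw [hsh, hsh, p0, p0 (0 + _)]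
    · rw [hc', hc', hsh, hsh, p0, p0 (0 + _), f0, f0 (0 + _)]
  · intro s α β
    have hz : ‖Complex.exp ((α : ℂ) * Complex.I)‖ = 1 := Complex.norm_exp_ofReal_mul_I α
    have hw : ‖Complex.exp (((-(a * α) : ℝ) : ℂ) * Complex.I)‖ = 1 :=
      Complex.norm_exp_ofReal_mul_I _
    have hm1 : Complex.exp ((α : ℂ) * Complex.I) ^ a *
        Complex.exp (((-(a * α) : ℝ) : ℂ) * Complex.I) = 1 := by
      rw [← Complex.exp_int_mul, ← Complex.exp_add, ← Complex.exp_zero]
      congr 1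
      push_cast
      ring
    have hm2 : ∀ v : ℝ, Complex.exp (((-(a * α) : ℝ) : ℂ) * Complex.I) *
        Complex.exp (((β + a * α + v : ℝ) : ℂ) * Complex.I)
          = Complex.exp (((β + v : ℝ) : ℂ) * Complex.I) := by
      intro v
      rw [← Complex.exp_add]
      congr 1
      push_cast
      ring
    have hm3 : ∀ u : ℝ, Complex.exp ((α : ℂ) * Complex.I) *
        Complex.exp (((0 + u : ℝ) : ℂ) * Complex.I)
          = Complex.exp (((α + u : ℝ) : ℂ) * Complex.I) := by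
      intro u
      rw [← Complex.exp_add]
      congr 1
      push_cast
      ring
    have p1 : ∀ u v : ℝ, pol2 (Real.pi / 2, s, α + u, β + v) =
        act2 a b (Complex.exp ((α : ℂ) * Complex.I))
          (Complex.exp (((-(a * α) : ℝ) : ℂ) * Complex.I))
          (pol2 (Real.pi / 2, s, 0 + u, β + a * α + v)) := by
      intro u v
      simp only [pol2, act2]
      rw [hm1, ← mul_assoc (Complex.exp (((-(a * α) : ℝ) : ℂ) * Complex.I)), hm2,
        ← mul_assoc (Complex.exp ((α : ℂ) * Complex.I)), hm3]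
      simp
    have f1 : ∀ u v c3 c4 : ℝ, fderiv ℝ pol2 (Real.pi / 2, s, α + u, β + v) (0, 1, c3, c4) =
        act2 a b (Complex.exp ((α : ℂ) * Complex.I))
          (Complex.exp (((-(a * α) : ℝ) : ℂ) * Complex.I))
          (fderiv ℝ pol2 (Real.pi / 2, s, 0 + u, β + a * α + v) (0, 1, c3, c4)) := by
      intro u v c3 c4
      rw [hfd, hfd]
      simp only [act2]
      rw [hm1, ← mul_assoc (Complex.exp (((-(a * α) : ℝ) : ℂ) * Complex.I)), hm2,
        ← mul_assoc (Complex.exp ((α : ℂ) * Complex.I)), hm3]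
      simp
    have hg : act2 a b (Complex.exp ((α : ℂ) * Complex.I))
        (Complex.exp (((-(a * α) : ℝ) : ℂ) * Complex.I)) ∈ (Mab a b).Γ :=
      ⟨_, _, hz, hw, rfl⟩
    refine ⟨?_, ?_⟩
    · show e (pol2 _) = e (pol2 _)
      rw [hsh, hsh, p1]
      exact hB.inv _ hg _ (hX _)
    · rw [hc', hc', hsh, hsh, p1, f1]
      exact hB.inv_B _ hg _ (hX _) _ (hT _ _)
  · intro r α β
    have p0 : ∀ u v : ℝ, pol2 (r, 0, α + u, v) = pol2 (r, 0, α + u, 0) := by
      intro u v
      simp [pol2]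
    have f0 : ∀ u v c3 c4 : ℝ, fderiv ℝ pol2 (r, 0, α + u, v) (1, 0, c3, c4) =
        fderiv ℝ pol2 (r, 0, α + u, 0) (1, 0, c3, c4) := by
      intro u v c3 c4
      rw [hfd, hfd]
      simp
    refine ⟨?_, ?_⟩
    · show e (pol2 _) = e (pol2 _)
      rw [hsh, hsh, p0, p0 _ (0 + _)]
    · rw [hb', hb', hsh, hsh, p0, p0 _ (0 + _), f0, f0 _ (0 + _)]
  · intro r α β
    have hz : ‖Complex.exp (((-(b * β) : ℝ) : ℂ) * Complex.I)‖ = 1 :=
      Complex.norm_exp_ofReal_mul_I _
    have hw : ‖Complex.exp ((β : ℂ) * Complex.I)‖ = 1 := Complex.norm_exp_ofReal_mul_I β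
    have hm1 : Complex.exp (((-(b * β) : ℝ) : ℂ) * Complex.I) *
        Complex.exp ((β : ℂ) * Complex.I) ^ b = 1 := by
      rw [← Complex.exp_int_mul, ← Complex.exp_add, ← Complex.exp_zero]
      congr 1
      push_cast
      ring
    have hm2 : ∀ u : ℝ, Complex.exp (((-(b * β) : ℝ) : ℂ) * Complex.I) *
        Complex.exp (((α + b * β + u : ℝ) : ℂ) * Complex.I)
          = Complex.exp (((α + u : ℝ) : ℂ) * Complex.I) := by
      intro u
      rw [← Complex.exp_add]
      congr 1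
      push_cast
      ring
    have hm3 : ∀ v : ℝ, Complex.exp ((β : ℂ) * Complex.I) *
        Complex.exp (((0 + v : ℝ) : ℂ) * Complex.I)
          = Complex.exp (((β + v : ℝ) : ℂ) * Complex.I) := by
      intro v
      rw [← Complex.exp_add]
      congr 1
      push_cast
      ring
    have p1 : ∀ u v : ℝ, pol2 (r, Real.pi / 2, α + u, β + v) =
        act2 a b (Complex.exp (((-(b * β) : ℝ) : ℂ) * Complex.I))
          (Complex.exp ((β : ℂ) * Complex.I))
          (pol2 (r, Real.pi / 2, α + b * β + u, 0 + v)) := by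
      intro u v
      simp only [pol2, act2]
      rw [hm1, ← mul_assoc (Complex.exp (((-(b * β) : ℝ) : ℂ) * Complex.I)), hm2,
        ← mul_assoc (Complex.exp ((β : ℂ) * Complex.I)), hm3]
      simp
    have f1 : ∀ u v c3 c4 : ℝ, fderiv ℝ pol2 (r, Real.pi / 2, α + u, β + v) (1, 0, c3, c4) =
        act2 a b (Complex.exp (((-(b * β) : ℝ) : ℂ) * Complex.I))
          (Complex.exp ((β : ℂ) * Complex.I))
          (fderiv ℝ pol2 (r, Real.pi / 2, α + b * β + u, 0 + v) (1, 0, c3, c4)) := by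
      intro u v c3 c4
      rw [hfd, hfd]
      simp only [act2]
      rw [hm1, ← mul_assoc (Complex.exp (((-(b * β) : ℝ) : ℂ) * Complex.I)), hm2,
        ← mul_assoc (Complex.exp ((β : ℂ) * Complex.I)), hm3]
      simp
    have hg : act2 a b (Complex.exp (((-(b * β) : ℝ) : ℂ) * Complex.I))
        (Complex.exp ((β : ℂ) * Complex.I)) ∈ (Mab a b).Γ :=
      ⟨_, _, hz, hw, rfl⟩
    refine ⟨?_, ?_⟩
    · show e (pol2 _) = e (pol2 _)
      rw [hsh, hsh, p1]
      exact hB.inv _ hg _ (hX _)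
    · rw [hb', hb', hsh, hsh, p1, f1]
      exact hB.inv_B _ hg _ (hX _) _ (hT _ _)

end Pool.Agent.Helper34.SW
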