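import Pool.Agent.Helper35.QT.T3
import Pool.Agent.Helper14.QT.TOR

/-!
# Project SW (MP_0ebdb3_gt): Gauss-Bonnet on a torus with arbitrary period
-/

set_option autoImplicit false

open Set MeasureTheory

namespace Pool.Agent.Helper34.SW

open Pool.Agent.Helper61 Pool.Agent.Helper61.QG Pool.Agent.Helper61.QT
open Pool.Agent.Helper35.QT (Per per_PP per_QQ cont_d)

/-- a nonnegative function of divergence form, periodic, vanishes -/
theorem div_zero {L : ℝ} (hL : 0 < L) {P Q : ℝ × ℝ → ℝ} (hP : ContDiff ℝ 1 P)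
    (hQ : ContDiff ℝ 1 Q)
    (p1 : ∀ r s, P (r, s + L) = P (r, s)) (q1 : ∀ r s, Q (r + L, s) = Q (r, s))
    (h0 : ∀ z, 0 ≤ d2 P z - d1 Q z) (z : ℝ × ℝ) : d2 P z - d1 Q z = 0 := by
  by_contra hne
  have hpos : 0 < d2 P z - d1 Q z := lt_of_le_of_ne (h0 z) (Ne.symm hne)
  obtain ⟨r0, s0⟩ := z
  set f : ℝ × ℝ → ℝ := fun z => fderiv ℝ (fun y => -Q y) z (1, 0) + fderiv ℝ P z (0, 1) with hf
  have hfe : ∀ z, f z = d2 P z - d1 Q z := by
    intro z
    rw [hf]
    beta_reduce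
    rw [fderiv_fun_neg]
    have : (-fderiv ℝ Q z) (1, 0) = -(fderiv ℝ Q z (1, 0)) := rfl
    rw [this]
    unfold d1 d2
    ring
  have hQn : ContDiff ℝ 1 (fun y => -Q y) := hQ.neg
  have hfc : Continuous f := (cont_d hQn (1, 0)).add (cont_d hP (0, 1))
  have hdiv := integral2_divergence_prod_of_hasFDerivAt (fun y => -Q y) P
    (fun z => fderiv ℝ (fun y => -Q y) z) (fun z => fderiv ℝ P z) r0 s0 (r0 + L)
    (s0 + L) hQn.continuous.continuousOn hP.continuous.continuousOn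
    (fun x _ => (hQn.differentiable one_ne_zero x).hasFDerivAt)
    (fun x _ => (hP.differentiable one_ne_zero x).hasFDerivAt)
    (hfc.continuousOn.integrableOn_compact (isCompact_uIcc.prod isCompact_uIcc))
  simp only [p1, q1] at hdiv
  have hz : ∫ x in r0..(r0 + L), ∫ y in s0..(s0 + L), f (x, y) = 0 := by
    refine hdiv.trans ?_
    ring
  have hcont : Continuous fun x => ∫ y in s0..(s0 + L), f (x, y) :=
    intervalIntegral.continuous_parametric_intervalIntegral_of_continuous'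
      (f := fun x y => f (x, y)) hfc s0 (s0 + L)
  have hin0 : ∀ x, 0 ≤ ∫ y in s0..(s0 + L), f (x, y) := by
    intro x
    apply intervalIntegral.integral_nonneg (by linarith)
    intro y _
    rw [hfe]
    exact h0 _
  have hin1 : 0 < ∫ y in s0..(s0 + L), f (r0, y) := by
    apply intervalIntegral.integral_pos (by linarith)
    · exact (hfc.comp (by fun_prop : Continuous fun y : ℝ => ((r0, y) : ℝ × ℝ))).continuousOn
    · intro y _
      rw [hfe]
      exact h0 _
    · refine ⟨s0, ⟨le_rfl, by linarith⟩, ?_⟩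
      rw [hfe]
      exact hpos
  have hout : 0 < ∫ x in r0..(r0 + L), ∫ y in s0..(s0 + L), f (x, y) := by
    apply intervalIntegral.integral_pos (by linarith)
    · exact hcont.continuousOn
    · intro x _
      exact hin0 x
    · exact ⟨r0, ⟨le_rfl, by linarith⟩, hin1⟩
  rw [hz] at hout
  exact lt_irrefl _ hout

/-- Gauss-Bonnet on the torus `ℝ²/(Lℤ)²`: if the curvature is nonnegative it vanishes -/
theorem gauss_bonnet (h : G_T2) {L : ℝ} (hL : 0 < L) {E F G : ℝ × ℝ → ℝ} (hE : ContDiff ℝ 2 E)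
    (hF : ContDiff ℝ 2 F) (hG : ContDiff ℝ 2 G)
    (hpos : ∀ z, 0 < E z ∧ 0 < E z * G z - F z ^ 2)
    (hr : ∀ r s, E (r + L, s) = E (r, s) ∧ F (r + L, s) = F (r, s) ∧ G (r + L, s) = G (r, s))
    (hs : ∀ r s, E (r, s + L) = E (r, s) ∧ F (r, s + L) = F (r, s) ∧ G (r, s + L) = G (r, s))
    (hk : ∀ z, 0 ≤ kap2 E F G z) (z : ℝ × ℝ) : kap2 E F G z = 0 := by
  obtain ⟨hP, hQ, hdiv⟩ := h E F G hE hF hG hpos
  have hv : ∀ z, 0 < vol E F G z := fun z => Real.sqrt_pos.2 (hpos z).2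
  have cs : ∀ f : ℝ × ℝ → ℝ, (∀ r s, f (r, s + L) = f (r, s)) → Per (0, L) f := by
    intro f hf y
    have e : y + (0, L) = (y.1, y.2 + L) := by
      ext <;> simp
    rw [e, hf]
  have cr : ∀ f : ℝ × ℝ → ℝ, (∀ r s, f (r + L, s) = f (r, s)) → Per (L, 0) f := by
    intro f hf y
    have e : y + (L, 0) = (y.1 + L, y.2) := by
      ext <;> simp
    rw [e, hf]
  have p1 : ∀ r s, PP E F G (r, s + L) = PP E F G (r, s) := by
    intro r s
    have h1 := per_PP (cs E fun r s => (hs r s).1) (cs F fun r s => (hs r s).2.1)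
      (cs G fun r s => (hs r s).2.2) (r, s)
    have e : ((r, s) : ℝ × ℝ) + (0, L) = (r, s + L) := by
      ext <;> simp
    rwa [e] at h1
  have q1 : ∀ r s, QQ E F G (r + L, s) = QQ E F G (r, s) := by
    intro r s
    have h1 := per_QQ (cr E fun r s => (hr r s).1) (cr F fun r s => (hr r s).2.1)
      (cr G fun r s => (hr r s).2.2) (r, s)
    have e : ((r, s) : ℝ × ℝ) + (L, 0) = (r + L, s) := by
      ext <;> simp
    rwa [e] at h1
  have h2 := div_zero hL hP hQ p1 q1 (by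
    intro y
    rw [← hdiv y]
    exact div_nonneg (hk y) (hv y).le) z
  rw [← hdiv z] at h2
  rcases div_eq_zero_iff.1 h2 with h3 | h3
  · exact h3
  · exact absurd h3 (hv z).ne'

/-- if the curvature is nonnegative at the points with `sin r cos r sin s cos s ≠ 0`, it vanishes -/
theorem gauss_bonnet' (h : G_T2) {L : ℝ} (hL : 0 < L) {E F G : ℝ × ℝ → ℝ} (hE : ContDiff ℝ 2 E)
    (hF : ContDiff ℝ 2 F) (hG : ContDiff ℝ 2 G)
    (hpos : ∀ z, 0 < E z ∧ 0 < E z * G z - F z ^ 2)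
    (hr : ∀ r s, E (r + L, s) = E (r, s) ∧ F (r + L, s) = F (r, s) ∧ G (r + L, s) = G (r, s))
    (hs : ∀ r s, E (r, s + L) = E (r, s) ∧ F (r, s + L) = F (r, s) ∧ G (r, s + L) = G (r, s))
    (hdense : Dense Reg2) (hk : ∀ x ∈ Reg2, 0 ≤ kap2 E F G (x.1, x.2.1)) (z : ℝ × ℝ) :
    kap2 E F G z = 0 := by
  have hkc : Continuous (kap2 E F G) := Helper14.QT.kap2_cont hE hF hG hpos
  have hc : Continuous fun x : Helper61.QS.R4 => kap2 E F G (x.1, x.2.1) :=
    hkc.comp (continuous_fst.prodMk (continuous_fst.comp continuous_snd))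
  have hcl : IsClosed {x : Helper61.QS.R4 | 0 ≤ kap2 E F G (x.1, x.2.1)} :=
    isClosed_le continuous_const hc
  have hall : ∀ x : Helper61.QS.R4, 0 ≤ kap2 E F G (x.1, x.2.1) := by
    intro x
    exact closure_minimal hk hcl (hdense x)
  exact gauss_bonnet h hL hE hF hG hpos hr hs (fun z => hall (z.1, z.2, 0, 0)) z

end Pool.Agent.Helper34.SW
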