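import Pool.Agent.Helper61.QM.StmtT

/-!
# Project SW (MP_0ebdb3_gt): soul metrics of `M_{a,b}` swept by tori, metrics of neck type
(matrix level)
-/

set_option autoImplicit false

namespace Pool.Agent.Helper34.SW

open Pool.Agent.Helper61.QM

/-- twisted polar coordinates `(r, s, α, β) ↦ ((cos r, e^{i(α + φ₁)} sin r), (cos s, e^{i(β + φ₂)} sin s))`,
`φ = φ(r, s)` -/
noncomputable def polS (φ : ℝ × ℝ → ℝ × ℝ) (x : R4) : W2 :=
  pol2 (x.1, x.2.1, x.2.2.1 + (φ (x.1, x.2.1)).1, x.2.2.2 + (φ (x.1, x.2.1)).2)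

/-- the metric induced on the surface `T_{α,β}` with parametrization `(r, s) ↦ p (r, s, α, β)` -/
noncomputable def gTor (gM : W2 → W2 → W2 → ℝ) (p : R4 → W2) (α β : ℝ) (z u v : ℝ × ℝ) : ℝ :=
  gB gM p (z.1, z.2, α, β) (u.1, u.2, 0, 0) (v.1, v.2, 0, 0)

/-- `K_M ≤ 0` on `T_{α,β}`: the curvature numbers of `∂_r, ∂_s` in the manifold are at most zero -/
def NonposOn (gM : W2 → W2 → W2 → ℝ) (p : R4 → W2) (α β : ℝ) : Prop :=
  ∀ r s : ℝ, Real.sin r ≠ 0 → Real.cos r ≠ 0 → Real.sin s ≠ 0 → Real.cos s ≠ 0 →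
    ∀ K, IsCurv (gB gM p) (r, s, α, β) (1, 0, 0, 0) (0, 1, 0, 0) K → K ≤ 0

/-- `T_{α,β}` is doubly periodic, i.e. an immersed torus, and `K_M ≤ K_T`: the curvature number of
`∂_r, ∂_s` of the manifold is at most the one of the torus (they are equal if the torus is totally
geodesic). -/
def TorusOn (gM : W2 → W2 → W2 → ℝ) (p : R4 → W2) (α β : ℝ) : Prop :=
  (∃ L : ℝ, 0 < L ∧ ∀ r s : ℝ, p (r + L, s, α, β) = p (r, s, α, β) ∧
    p (r, s + L, α, β) = p (r, s, α, β)) ∧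
  ∀ r s : ℝ, Real.sin r ≠ 0 → Real.cos r ≠ 0 → Real.sin s ≠ 0 → Real.cos s ≠ 0 →
    ∀ K κ, IsCurv (gB gM p) (r, s, α, β) (1, 0, 0, 0) (0, 1, 0, 0) K →
      IsCurv (gTor gM p α β) (r, s) (1, 0) (0, 1) κ → K ≤ κ

/-- The metric is swept by tori: in some twisted polar coordinates each of the surfaces `T_{α,β}` is an
immersed torus with `K_M ≤ K_T`, or satisfies `K_M ≤ 0`. -/
def Swept (gM : W2 → W2 → W2 → ℝ) : Prop :=
  ∃ φ : ℝ × ℝ → ℝ × ℝ, ContDiff ℝ 3 φ ∧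
    ∀ α β : ℝ, TorusOn gM (polS φ) α β ∨ NonposOn gM (polS φ) α β

/-- The metric is of neck type: in some twisted polar coordinates `g(∂_s, c) = ψ(s) c_s` for all `c` and
`g(∂_r, ·)` does not depend on `s`, or the same with `r` and `s` exchanged. -/
def Neck (gM : W2 → W2 → W2 → ℝ) : Prop :=
  ∃ (φ : ℝ × ℝ → ℝ × ℝ) (ψ : ℝ → ℝ), ContDiff ℝ 3 φ ∧
    (((∀ x c : R4, gB gM (polS φ) x (0, 1, 0, 0) c = ψ x.2.1 * c.2.1) ∧
      ∀ (x c : R4) (t : ℝ), gB gM (polS φ) (x.1, t, x.2.2) (1, 0, 0, 0) c =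
        gB gM (polS φ) x (1, 0, 0, 0) c) ∨
    ((∀ x c : R4, gB gM (polS φ) x (1, 0, 0, 0) c = ψ x.1 * c.1) ∧
      ∀ (x c : R4) (t : ℝ), gB gM (polS φ) (t, x.2) (0, 1, 0, 0) c =
        gB gM (polS φ) x (0, 1, 0, 0) c))

end Pool.Agent.Helper34.SW
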