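import Pool.Agent.Helper34.SW.Polar
import Pool.Agent.Helper34.SW.Curv
import Pool.Agent.Helper34.SW.GB
import Pool.Agent.Helper34.SW.Stmt

/-!
# Project SW (MP_0ebdb3_gt): the planes `∂_r, ∂_s` are flat
-/

set_option autoImplicit false

open Set

namespace Pool.Agent.Helper34.SW

open Pool.Agent.Helper61 Pool.Agent.Helper61.QG Pool.Agent.Helper61.QT
open Pool.Agent.Helper61.QS (V En rk R4 IsCurv SecNN Gam dd)
open Pool.Agent.Helper61.QM (Model W2 Mab pol2 act2 o1 o2)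

/-- expansion of a symmetric bilinear form on the plane of the first two coordinates -/
theorem expand (g : R4 →L[ℝ] R4 →L[ℝ] ℝ) (hs : ∀ c d, g c d = g d c) (u v : ℝ × ℝ) :
    g (u.1, u.2, 0, 0) (v.1, v.2, 0, 0) =
      u.1 * v.1 * g (1, 0, 0, 0) (1, 0, 0, 0) +
      (u.1 * v.2 + u.2 * v.1) * g (1, 0, 0, 0) (0, 1, 0, 0) +
      u.2 * v.2 * g (0, 1, 0, 0) (0, 1, 0, 0) := by
  have h : ∀ w : ℝ × ℝ, ((w.1, w.2, 0, 0) : R4) =
      w.1 • ((1, 0, 0, 0) : R4) + w.2 • ((0, 1, 0, 0) : R4) := by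
    intro w
    simp
  rw [h u, h v]
  simp only [map_add, map_smul, add_apply, _root_.smul_apply, smul_eq_mul]
  rw [hs (0, 1, 0, 0) (1, 0, 0, 0)]
  ring

section

variable {a b : ℤ} {gM : W2 → W2 →L[ℝ] W2 →L[ℝ] ℝ} {φ : ℝ × ℝ → ℝ × ℝ}

/-- positivity at all points of the tori -/
theorem pos_tor (hPL : G_PL2) (hab : a * b ≠ 1) (hM : IsBase (Mab a b) gM)
    (hφ : ContDiff ℝ 3 φ) (x : R4) (u v : ℝ) (huv : ¬ (u = 0 ∧ v = 0)) :
    0 < gB gM (psh φ) x (u, v, 0, 0) (u, v, 0, 0) := by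
  have hp := isPolar hPL hab hφ
  exact hM.pos _ (hp.mem x) _ (hp.tan x _) (not_O hPL hab hφ x u v huv)

theorem fd_slice {p : R4 → W2} (hp : Differentiable ℝ p) (r s α β : ℝ) (u : ℝ × ℝ) :
    fderiv ℝ (fun z : ℝ × ℝ => p (z.1, z.2, α, β)) (r, s) u =
      fderiv ℝ p (r, s, α, β) (u.1, u.2, 0, 0) := by
  have h1 : HasFDerivAt (fun z : ℝ × ℝ => ((z.1, z.2, α, β) : R4))
      ((ContinuousLinearMap.fst ℝ ℝ ℝ).prod ((ContinuousLinearMap.snd ℝ ℝ ℝ).prod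
        ((0 : ℝ × ℝ →L[ℝ] ℝ).prod (0 : ℝ × ℝ →L[ℝ] ℝ)))) (r, s) :=
    hasFDerivAt_fst.prodMk (hasFDerivAt_snd.prodMk
      ((hasFDerivAt_const α (r, s)).prodMk (hasFDerivAt_const β (r, s))))
  have h2 : HasFDerivAt (fun z : ℝ × ℝ => p (z.1, z.2, α, β)) _ (r, s) :=
    HasFDerivAt.comp (r, s) (hp (r, s, α, β)).hasFDerivAt h1
  rw [h2.fderiv]
  rfl

/-- the coefficients on the surface `T_{α,β}` are periodic if the surface is -/
theorem per_gB {p : R4 → W2} (hp : Differentiable ℝ p) (α β : ℝ) (c : ℝ × ℝ)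
    (h : ∀ r s, p (r + c.1, s + c.2, α, β) = p (r, s, α, β)) (r s : ℝ) (u v : ℝ × ℝ) :
    gB gM p (r + c.1, s + c.2, α, β) (u.1, u.2, 0, 0) (v.1, v.2, 0, 0) =
      gB gM p (r, s, α, β) (u.1, u.2, 0, 0) (v.1, v.2, 0, 0) := by
  have h1 : (fun z : ℝ × ℝ => p ((z + c).1, (z + c).2, α, β)) =
      fun z : ℝ × ℝ => p (z.1, z.2, α, β) := funext fun z => h z.1 z.2
  have h2 := fderiv_comp_add_right (𝕜 := ℝ) (f := fun z : ℝ × ℝ => p (z.1, z.2, α, β))
    (x := (r, s)) c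
  rw [h1] at h2
  have h3 : ∀ u : ℝ × ℝ, fderiv ℝ p (r + c.1, s + c.2, α, β) (u.1, u.2, 0, 0) =
      fderiv ℝ p (r, s, α, β) (u.1, u.2, 0, 0) := by
    intro u
    rw [← fd_slice hp, ← fd_slice hp, h2]
    rfl
  have h4 : ∀ x u v, gB gM p x u v = gM (p x) (fderiv ℝ p x u) (fderiv ℝ p x v) :=
    fun _ _ _ => rfl
  rw [h4, h4, h3, h3, h]

/-- the surface `T_{α,β}` is a torus with `K_M ≤ K_T`: the planes are flat -/
theorem flat_torus (hT2 : G_T2) (hPL : G_PL2) (hBX : G_GBX) (hab : a * b ≠ 1)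
    (hM : IsBase (Mab a b) gM) (hφ : ContDiff ℝ 3 φ) (α β : ℝ) {L : ℝ} (hL : 0 < L)
    (hper : ∀ r s, psh φ (r + L, s, α, β) = psh φ (r, s, α, β) ∧
      psh φ (r, s + L, α, β) = psh φ (r, s, α, β))
    (hnn : ∀ x ∈ Reg2, ∀ K, IsCurv (gB gM (psh φ)) x (1, 0, 0, 0) (0, 1, 0, 0) K → 0 ≤ K)
    (hsw : ∀ r s, ((r, s, α, β) : R4) ∈ Reg2 → ∀ K κ,
      IsCurv (gB gM (psh φ)) (r, s, α, β) (1, 0, 0, 0) (0, 1, 0, 0) K →
      QM.IsCurv (fun z u v : ℝ × ℝ => gB gM (psh φ) (z.1, z.2, α, β)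
        (u.1, u.2, 0, 0) (v.1, v.2, 0, 0)) (r, s) (1, 0) (0, 1) κ → K ≤ κ) (r0 s0 : ℝ)
    (hx : ((r0, s0, α, β) : R4) ∈ Reg2) :
    IsCurv (gB gM (psh φ)) (r0, s0, α, β) (1, 0, 0, 0) (0, 1, 0, 0) 0 := by
  have hpol := isPolar hPL hab hφ
  have hpd : Differentiable ℝ (psh φ) := hpol.smooth.differentiable (by norm_num)
  obtain ⟨hsm, hsymm, -, hex⟩ := hBX W2 (Mab a b) (psh φ) Reg2 gM hpol hM
  have hperg := fun c h => per_gB (gM := gM) hpd α β c h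
  set h := gB gM (psh φ) with hh
  let E : ℝ × ℝ → ℝ := fun z => h (z.1, z.2, α, β) (1, 0, 0, 0) (1, 0, 0, 0)
  let F : ℝ × ℝ → ℝ := fun z => h (z.1, z.2, α, β) (1, 0, 0, 0) (0, 1, 0, 0)
  let G : ℝ × ℝ → ℝ := fun z => h (z.1, z.2, α, β) (0, 1, 0, 0) (0, 1, 0, 0)
  let ι : ℝ × ℝ → R4 := fun z => (z.1, z.2, α, β)
  have hι : ContDiff ℝ 2 ι :=
    contDiff_fst.prodMk (contDiff_snd.prodMk (contDiff_const.prodMk contDiff_const))
  have hsmι : ∀ u v : R4, ContDiff ℝ 2 (fun z => h (ι z) u v) := fun u v =>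
    (((hsm.comp hι).clm_apply contDiff_const).clm_apply contDiff_const)
  have hE : ContDiff ℝ 2 E := hsmι _ _
  have hF : ContDiff ℝ 2 F := hsmι _ _
  have hG : ContDiff ℝ 2 G := hsmι _ _
  have hg : ∀ z u v : ℝ × ℝ, h (z.1, z.2, α, β) (u.1, u.2, 0, 0) (v.1, v.2, 0, 0) =
      u.1 * v.1 * E z + (u.1 * v.2 + u.2 * v.1) * F z + u.2 * v.2 * G z := fun z u v =>
    expand (h (z.1, z.2, α, β)) (hsymm _) u v
  have hpos : ∀ z, 0 < E z ∧ 0 < E z * G z - F z ^ 2 := by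
    intro z
    have h1 : 0 < E z := pos_tor hPL hab hM hφ (z.1, z.2, α, β) 1 0 fun h => one_ne_zero h.1
    refine ⟨h1, ?_⟩
    have h2 := pos_tor hPL hab hM hφ (z.1, z.2, α, β) (-F z) (E z) fun h => h1.ne' h.2
    have h3 := hg z (-F z, E z) (-F z, E z)
    simp only [] at h3
    rw [← hh, h3] at h2
    have h4 : 0 < E z * (E z * G z - F z ^ 2) := by
      refine lt_of_lt_of_eq h2 ?_
      ring
    exact (mul_pos_iff_of_pos_left h1).1 h4
  have q1 : ∀ r s, E (r + L, s) = E (r, s) ∧ F (r + L, s) = F (r, s) ∧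
      G (r + L, s) = G (r, s) := by
    intro r s
    have hp := hperg (L, 0) (fun r s => by simpa using (hper r s).1) r s
    simp only [add_zero] at hp
    exact ⟨hp (1, 0) (1, 0), hp (1, 0) (0, 1), hp (0, 1) (0, 1)⟩
  have q2 : ∀ r s, E (r, s + L) = E (r, s) ∧ F (r, s + L) = F (r, s) ∧
      G (r, s + L) = G (r, s) := by
    intro r s
    have hp := hperg (0, L) (fun r s => by simpa using (hper r s).2) r s
    simp only [add_zero] at hp
    exact ⟨hp (1, 0) (1, 0), hp (1, 0) (0, 1), hp (0, 1) (0, 1)⟩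
  have hle : ∀ y ∈ Reg2, ∃ K, IsCurv h (y.1, y.2.1, α, β) (1, 0, 0, 0) (0, 1, 0, 0) K ∧
      0 ≤ K ∧ K ≤ kap2 E F G (y.1, y.2.1) := by
    intro y hy
    have hy' : ((y.1, y.2.1, α, β) : R4) ∈ Reg2 := hy
    obtain ⟨K, hK⟩ := hex _ hy'
    exact ⟨K, hK, hnn _ hy' K hK, hsw _ _ hy' K _ hK (curv2 hg hE hF hG hpos (y.1, y.2.1))⟩
  have hzero := gauss_bonnet' hT2 hL hE hF hG hpos q1 q2 hpol.dense fun y hy => by
    obtain ⟨K, -, h1, h2⟩ := hle y hy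
    exact h1.trans h2
  obtain ⟨K, hK, h1, h2⟩ := hle _ hx
  rw [hzero] at h2
  have h3 : K = 0 := le_antisymm h2 h1
  rw [h3] at hK
  exact hK

/-- the first coordinate -/
noncomputable def l1 : R4 →L[ℝ] ℝ := ContinuousLinearMap.fst ℝ ℝ (ℝ × ℝ × ℝ)

/-- the second coordinate -/
noncomputable def l2 : R4 →L[ℝ] ℝ :=
  (ContinuousLinearMap.fst ℝ ℝ (ℝ × ℝ)).comp (ContinuousLinearMap.snd ℝ ℝ (ℝ × ℝ × ℝ))

/-- metrics of neck type -/
theorem flat_of_neck (hPL : G_PL2) (hBX : G_GBX) (hab : a * b ≠ 1)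
    (hM : IsBase (Mab a b) gM) (hφ : ContDiff ℝ 3 φ) (ψ : ℝ → ℝ)
    (hN : ((∀ x c : R4, gB gM (psh φ) x (0, 1, 0, 0) c = ψ x.2.1 * c.2.1) ∧
      ∀ (x c : R4) (t : ℝ), gB gM (psh φ) (x.1, t, x.2.2) (1, 0, 0, 0) c =
        gB gM (psh φ) x (1, 0, 0, 0) c) ∨
      ((∀ x c : R4, gB gM (psh φ) x (1, 0, 0, 0) c = ψ x.1 * c.1) ∧
      ∀ (x c : R4) (t : ℝ), gB gM (psh φ) (t, x.2) (0, 1, 0, 0) c =
        gB gM (psh φ) x (0, 1, 0, 0) c)) :
    ∀ x ∈ Reg2, IsCurv (gB gM (psh φ)) x (1, 0, 0, 0) (0, 1, 0, 0) 0 := by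
  intro x hx
  obtain ⟨hsm, hsymm, hpos, hex⟩ := hBX W2 (Mab a b) (psh φ) Reg2 gM (isPolar hPL hab hφ) hM
  have df : ∀ c d, Differentiable ℝ (fun y => gB gM (psh φ) y c d) := fun c d =>
    ((hsm.clm_apply contDiff_const).clm_apply contDiff_const).differentiable (by norm_num)
  obtain ⟨K, hK⟩ := hex x hx
  have hK0 : K = 0 := by
    rcases hN with ⟨h1, h2⟩ | ⟨h1, h2⟩
    · have H : NeckG (gB gM (psh φ)) (0, 1, 0, 0) (1, 0, 0, 0) l2 ψ :=
        { df := df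
          symm := hsymm
          lu := rfl
          lv := rfl
          hu := h1
          hv := fun x c t => by
            have e : x + t • ((0, 1, 0, 0) : R4) = (x.1, x.2.1 + t, x.2.2) := by
              obtain ⟨x1, x2, x3, x4⟩ := x
              simp
            rw [e]
            exact h2 x c _ }
      refine H.curv_vu x ?_ K hK
      have h3 := hpos x hx (0, 1, 0, 0) (by
        intro h
        exact one_ne_zero (congrArg (fun y : R4 => y.2.1) h))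
      rw [h1] at h3
      simp only [mul_one] at h3
      exact h3.ne'
    · have H : NeckG (gB gM (psh φ)) (1, 0, 0, 0) (0, 1, 0, 0) l1 ψ :=
        { df := df
          symm := hsymm
          lu := rfl
          lv := rfl
          hu := h1
          hv := fun x c t => by
            have e : x + t • ((1, 0, 0, 0) : R4) = (x.1 + t, x.2) := by
              obtain ⟨x1, x2, x3, x4⟩ := x
              simp
            rw [e]
            exact h2 x c _ }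
      refine H.curv_uv x ?_ K hK
      have h3 := hpos x hx (1, 0, 0, 0) (by
        intro h
        exact one_ne_zero (congrArg (fun y : R4 => y.1) h))
      rw [h1] at h3
      simp only [mul_one] at h3
      exact h3.ne'
  rw [hK0] at hK
  exact hK

end

end Pool.Agent.Helper34.SW
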