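import Pool.Agent.Helper34.SW.Flat
import Pool.Agent.Helper34.SW.Dat
import Pool.Agent.Helper14.QT.SPL
import Pool.Agent.Helper61.QT.Final

/-!
# Project SW (MP_0ebdb3_gt): the main theorem
-/

set_option autoImplicit false

open Set ComplexConjugate

namespace Pool.Agent.Helper34.SW

open Pool.Agent Pool.Agent.Helper61 Pool.Agent.Helper61.QG Pool.Agent.Helper61.QT
open Pool.Agent.Helper61.QS (V En rk R4 IsCurv SecNN Gam dd IsIso)
open Pool.Agent.Helper61.QM (Model W2 Mab pol2 act2 o1 o2 rot IsRe IsIm)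

theorem hPL : G_PL2 := Helper35.QT.goalPL2

/-- If the planes `∂_r, ∂_s` of twisted polar coordinates are flat, the bundle splits. -/
theorem opFlat (n k : ℕ) (a b : ℤ) (e : W2 → En n) (B : W2 → W2 →L[ℝ] En n)
    (gM : W2 → W2 →L[ℝ] W2 →L[ℝ] ℝ) (γ : W2 × V n → V n →L[ℝ] V n →L[ℝ] ℝ) (ρ : ℝ)
    (φ : ℝ × ℝ → ℝ × ℝ) (hab : b = 0 ∨ (a = 1 ∧ b = 2)) (hE : IsBundle (Mab a b) k e B)
    (hM : IsBase (Mab a b) gM) (hγ : IsFibre (Mab a b) ρ e γ) (hρ : 0 < ρ)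
    (hφ : ContDiff ℝ 3 φ)
    (hflat : ∀ x ∈ Reg2, IsCurv (gB gM (psh φ)) x (1, 0, 0, 0) (0, 1, 0, 0) 0)
    (hsec : TubeSec (Mab a b) k ρ e B gM γ) : Splits (Mab a b) e := by
  have hab1 : a * b ≠ 1 := by
    rcases hab with rfl | ⟨rfl, rfl⟩
    · simp
    · norm_num
  have hpol : IsPolar (Mab a b) (psh φ) Reg2 := isPolar hPL hab1 hφ
  have hF : ∀ x ∈ Reg2, FG B (psh φ) x * e (psh φ x) = 0 := by
    intro x hx
    exact (allGKC W2 (Mab a b) (psh φ) Reg2 k n e B gM γ ρ hpol hE hM hγ hρ hsec x hx 0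
      (hflat x hx)).2 rfl
  have hdat := datS hPL a b hab k n e B φ hE hφ hF
  obtain ⟨R, T, hol⟩ := allHOL2 a b n _ _ _ hdat
  have hx0 : psh φ (0, 0, 0, 0) ∈ (Mab a b).X := hpol.mem _
  obtain ⟨-, J, hJ1, hJ2⟩ :=
    Helper5.QS.goalISO n (e (psh φ (0, 0, 0, 0))) (hE.idem _ hx0) (hE.symm _ hx0)
  have hJ : IsIso ((fun x => e (psh φ x)) (0, 0, 0, 0)) J := ⟨hJ1, hJ2⟩
  have hloops := (Helper32.QT.goalLP2 a b n _ _ R T J hab hol hJ).1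
  have hq : QConcl a b _ (lg J R) (lf J T) := by
    rcases hab with rfl | ⟨rfl, rfl⟩
    · exact Helper28.QT.goalQC0 QS.allCORE a _ _ _ _ _ hloops
    · exact allK4 _ _ _ _ _ hloops
  have hsplit := Helper93.QT.goalEJ2 Helper32.QT.goalLP2 a b n _ _ R T J hab hol hJ hq
  exact allDES2 a b hab n e hE.inv (Helper14.QT.goalSPL a b n e φ hφ.continuous hsplit)

/-- the theorem, operator level -/
theorem opMain (n k : ℕ) (a b : ℤ) (e : W2 → En n) (B : W2 → W2 →L[ℝ] En n)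
    (gM : W2 → W2 →L[ℝ] W2 →L[ℝ] ℝ) (γ : W2 × V n → V n →L[ℝ] V n →L[ℝ] ℝ) (ρ : ℝ)
    (hab : b = 0 ∨ (a = 1 ∧ b = 2)) (hE : IsBundle (Mab a b) k e B)
    (hM : IsBase (Mab a b) gM) (hγ : IsFibre (Mab a b) ρ e γ) (hρ : 0 < ρ)
    (hcl : Swept (fun P u v => gM P u v) ∨ Neck (fun P u v => gM P u v))
    (hsec : TubeSec (Mab a b) k ρ e B gM γ) : Splits (Mab a b) e := by
  have hab1 : a * b ≠ 1 := by
    rcases hab with rfl | ⟨rfl, rfl⟩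
    · simp
    · norm_num
  rcases hcl with ⟨φ, hφ, hsw⟩ | ⟨φ, ψ, hφ, hN⟩
  · have hpol : IsPolar (Mab a b) (psh φ) Reg2 := isPolar hPL hab1 hφ
    refine opFlat n k a b e B gM γ ρ φ hab hE hM hγ hρ hφ ?_ hsec
    have hnn : ∀ x ∈ Reg2, ∀ K, IsCurv (gB gM (psh φ)) x (1, 0, 0, 0) (0, 1, 0, 0) K → 0 ≤ K :=
      fun x hx K hK =>
        (allGKC W2 (Mab a b) (psh φ) Reg2 k n e B gM γ ρ hpol hE hM hγ hρ hsec x hx K hK).1
    rintro ⟨r, s, α, β⟩ hx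
    rcases hsw α β with ⟨⟨L, hL, hper⟩, hle⟩ | hle
    · refine flat_torus Helper85.QT.goalT2 hPL allGBX hab1 hM hφ α β hL hper hnn ?_ r s hx
      intro r s hx K κ hK hκ
      exact hle r s hx.1 hx.2.1 hx.2.2.1 hx.2.2.2 K κ hK hκ
    · obtain ⟨-, -, -, hex⟩ := allGBX W2 (Mab a b) (psh φ) Reg2 gM hpol hM
      obtain ⟨K, hK⟩ := hex _ hx
      have h0 : K = 0 :=
        le_antisymm (hle r s hx.1 hx.2.1 hx.2.2.1 hx.2.2.2 K hK) (hnn _ hx K hK)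
      rw [h0] at hK
      exact hK
  · exact opFlat n k a b e B gM γ ρ φ hab hE hM hγ hρ hφ
      (flat_of_neck hPL allGBX hab1 hM hφ ψ hN) hsec

/-- the theorem, matrix level -/
theorem main (n k : ℕ) (a b : ℤ) (e : W2 → Matrix (Fin n) (Fin n) ℝ)
    (B : W2 → W2 → Matrix (Fin n) (Fin n) ℝ) (gM : W2 → W2 → W2 → ℝ)
    (γ : W2 → (Fin n → ℝ) → (Fin n → ℝ) → (Fin n → ℝ) → ℝ) (ρ : ℝ)
    (hab : b = 0 ∨ (a = 1 ∧ b = 2)) (hE : QM.IsBundle (Mab a b) k e B)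
    (hM : QM.IsBase (Mab a b) gM) (hγ : QM.IsFibre (Mab a b) ρ e γ) (hρ : 0 < ρ)
    (hcl : Swept gM ∨ Neck gM) (hsec : QM.TubeSec (Mab a b) k ρ e B gM γ) :
    QM.Splits (Mab a b) e := by
  obtain ⟨e', B', g', γ', hrel⟩ := Helper35.QG.goalCVX W2 n e B gM γ hE.smooth_e hE.smooth_B
    hE.linear_B hM.smooth hM.linear hγ.smooth hγ.linear
  obtain ⟨h1, h2, h3⟩ := Helper87.QG.goalCVB W2 (Mab a b) n k ρ e B gM γ e' B' g' γ' hrel hρ
  have hsec' := Helper23.QG.goalCVT W2 (Mab a b) n k ρ e B gM γ e' B' g' γ' hrel hρ hsec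
  have hg : (fun P u v => g' P u v) = gM := by
    funext P u v
    exact hrel.hg P u v
  rw [← hg] at hcl
  exact Helper35.QG.goalCVS W2 (Mab a b) n e e' hrel.he (opMain n k a b e' B' g' γ' ρ hab (h1 hE)
    (h2 hM) (h3 hγ) hρ hcl hsec')

end Pool.Agent.Helper34.SW
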