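import Pool.Agent.Helper61.QT.GoalsP

/-!
# Project SW (MP_0ebdb3_gt): the twisted polar coordinates `psh φ` are a system of coordinates
-/

set_option autoImplicit false

open Set ComplexConjugate

namespace Pool.Agent.Helper34.SW

open Pool.Agent.Helper61 Pool.Agent.Helper61.QG Pool.Agent.Helper61.QT
open Pool.Agent.Helper61.QS (V En rk R4)
open Pool.Agent.Helper61.QM (Model W2 Mab pol2 act2 o1 o2)

/-- the derivative of the shear -/
noncomputable def dsh (φ : ℝ × ℝ → ℝ × ℝ) (z : ℝ × ℝ) (c : R4) : R4 :=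
  (c.1, c.2.1, c.2.2.1 + (fderiv ℝ φ z (c.1, c.2.1)).1, c.2.2.2 + (fderiv ℝ φ z (c.1, c.2.1)).2)

theorem shr_smooth {m : WithTop ℕ∞} {φ : ℝ × ℝ → ℝ × ℝ} (hφ : ContDiff ℝ m φ) :
    ContDiff ℝ m (shr φ) := by
  have h : ContDiff ℝ m (fun x : R4 => φ (x.1, x.2.1)) := hφ.comp (by fun_prop)
  unfold shr
  have h1 : ContDiff ℝ m (fun x : R4 => (φ (x.1, x.2.1)).1) := h.fst
  have h2 : ContDiff ℝ m (fun x : R4 => (φ (x.1, x.2.1)).2) := h.snd
  fun_prop

theorem shr_fderiv {φ : ℝ × ℝ → ℝ × ℝ} (hφ : Differentiable ℝ φ) (x c : R4) :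
    fderiv ℝ (shr φ) x c = dsh φ (x.1, x.2.1) c := by
  have hd : HasFDerivAt φ (fderiv ℝ φ (x.1, x.2.1)) (x.1, x.2.1) := (hφ _).hasFDerivAt
  have h1 : HasFDerivAt (fun y : R4 => y.1) ((ContinuousLinearMap.fst ℝ ℝ (ℝ × ℝ × ℝ))) x :=
    hasFDerivAt_fst
  have h2' : HasFDerivAt (fun y : R4 => y.2) ((ContinuousLinearMap.snd ℝ ℝ (ℝ × ℝ × ℝ))) x :=
    hasFDerivAt_snd
  have h2 : HasFDerivAt (fun y : R4 => y.2.1) ((ContinuousLinearMap.fst ℝ ℝ (ℝ × ℝ)).comp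
      (ContinuousLinearMap.snd ℝ ℝ (ℝ × ℝ × ℝ))) x := h2'.fst
  have h3 : HasFDerivAt (fun y : R4 => y.2.2.1) ((ContinuousLinearMap.fst ℝ ℝ ℝ).comp
      ((ContinuousLinearMap.snd ℝ ℝ (ℝ × ℝ)).comp
      (ContinuousLinearMap.snd ℝ ℝ (ℝ × ℝ × ℝ)))) x := h2'.snd.fst
  have h4 : HasFDerivAt (fun y : R4 => y.2.2.2) ((ContinuousLinearMap.snd ℝ ℝ ℝ).comp
      ((ContinuousLinearMap.snd ℝ ℝ (ℝ × ℝ)).comp
      (ContinuousLinearMap.snd ℝ ℝ (ℝ × ℝ × ℝ)))) x := h2'.snd.snd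
  have h5 : HasFDerivAt (fun y : R4 => φ (y.1, y.2.1)) ((fderiv ℝ φ (x.1, x.2.1)).comp
      ((ContinuousLinearMap.fst ℝ ℝ (ℝ × ℝ × ℝ)).prod ((ContinuousLinearMap.fst ℝ ℝ (ℝ × ℝ)).comp
      (ContinuousLinearMap.snd ℝ ℝ (ℝ × ℝ × ℝ))))) x :=
    HasFDerivAt.comp (f := fun y : R4 => (y.1, y.2.1)) x hd (h1.prodMk h2)
  have h6 := h1.prodMk (h2.prodMk ((h3.add h5.fst).prodMk (h4.add h5.snd)))
  have h7 : HasFDerivAt (shr φ) _ x := h6
  rw [h7.fderiv]
  rfl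

section

variable {φ : ℝ × ℝ → ℝ × ℝ}

theorem psh_fderiv (hsm : ContDiff ℝ 3 pol2) (hφ : ContDiff ℝ 3 φ) (x c : R4) :
    fderiv ℝ (psh φ) x c = fderiv ℝ pol2 (shr φ x) (dsh φ (x.1, x.2.1) c) := by
  have hφd : Differentiable ℝ φ := hφ.differentiable (by norm_num)
  have h1 : fderiv ℝ (psh φ) x = (fderiv ℝ pol2 (shr φ x)).comp (fderiv ℝ (shr φ) x) := by
    apply fderiv_comp x
    · exact (hsm.differentiable (by norm_num)) _
    · exact ((shr_smooth hφ).differentiable (by norm_num)) x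
  rw [h1, ContinuousLinearMap.comp_apply, shr_fderiv hφd]

/-- the twisted polar coordinates are a system of coordinates, transversal to the orbits -/
theorem isPolar (hPL : G_PL2) {a b : ℤ} (hab : a * b ≠ 1) (hφ : ContDiff ℝ 3 φ) :
    IsPolar (Mab a b) (psh φ) Reg2 := by
  obtain ⟨hpol, -⟩ := hPL a b hab
  refine ⟨hpol.smooth.comp (shr_smooth hφ), fun x => hpol.mem _, fun x c => ?_, hpol.isOpen,
    hpol.dense, fun x hx c hc => ?_⟩
  · rw [psh_fderiv hpol.smooth hφ]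
    exact hpol.tan _ _
  · rw [psh_fderiv hpol.smooth hφ] at hc
    have h := hpol.trans (shr φ x) hx _ hc
    have h1 : c.1 = 0 := congrArg (fun y : R4 => y.1) h
    have h2 : c.2.1 = 0 := congrArg (fun y : R4 => y.2.1) h
    have h3 : c.2.2.1 + (fderiv ℝ φ (x.1, x.2.1) (c.1, c.2.1)).1 = 0 :=
      congrArg (fun y : R4 => y.2.2.1) h
    have h4 : c.2.2.2 + (fderiv ℝ φ (x.1, x.2.1) (c.1, c.2.1)).2 = 0 :=
      congrArg (fun y : R4 => y.2.2.2) h
    have h0 : fderiv ℝ φ (x.1, x.2.1) ((0 : ℝ), (0 : ℝ)) = 0 := map_zero _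
    rw [h1, h2, h0] at h3 h4
    refine Prod.ext h1 (Prod.ext h2 (Prod.ext ?_ ?_))
    · simpa using h3
    · simpa using h4

/-- the vectors `u ∂r + v ∂s` are not tangent to the orbits (at all points) -/
theorem not_O (hPL : G_PL2) {a b : ℤ} (hab : a * b ≠ 1) (hφ : ContDiff ℝ 3 φ) (x : R4) (u v : ℝ)
    (huv : ¬ (u = 0 ∧ v = 0)) :
    fderiv ℝ (psh φ) x (u, v, 0, 0) ∉ (Mab a b).O (psh φ x) := by
  obtain ⟨hpol, hD⟩ := hPL a b hab
  rintro ⟨σ, τ, h⟩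
  rw [psh_fderiv hpol.smooth hφ, hD] at h
  set y := shr φ x with hy
  have hyx : psh φ x = pol2 y := rfl
  rw [hyx] at h
  set d := dsh φ (x.1, x.2.1) (u, v, 0, 0) with hd
  have hd1 : d.1 = u := rfl
  have hd2 : d.2.1 = v := rfl
  rw [hd1, hd2] at h
  have e1 : Complex.exp (y.2.2.1 * Complex.I) ≠ 0 := Complex.exp_ne_zero _
  have e2 : Complex.exp (y.2.2.2 * Complex.I) ≠ 0 := Complex.exp_ne_zero _
  have h1 : -((Real.sin y.1 : ℂ) * u) = (σ • o1 a (pol2 y) + τ • o2 b (pol2 y)).1.1 :=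
    congrArg (fun P : W2 => P.1.1) h
  have h2 : Complex.exp (y.2.2.1 * Complex.I) *
      (Real.cos y.1 * u + Complex.I * Real.sin y.1 * d.2.2.1) =
      (σ • o1 a (pol2 y) + τ • o2 b (pol2 y)).1.2 := congrArg (fun P : W2 => P.1.2) h
  have h3 : -((Real.sin y.2.1 : ℂ) * v) = (σ • o1 a (pol2 y) + τ • o2 b (pol2 y)).2.1 :=
    congrArg (fun P : W2 => P.2.1) h
  have h4 : Complex.exp (y.2.2.2 * Complex.I) *
      (Real.cos y.2.1 * v + Complex.I * Real.sin y.2.1 * d.2.2.2) =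
      (σ • o1 a (pol2 y) + τ • o2 b (pol2 y)).2.2 := congrArg (fun P : W2 => P.2.2) h
  have g1 : (σ • o1 a (pol2 y) + τ • o2 b (pol2 y)).1.1 =
      Complex.I * ((σ + τ * b : ℝ) * Real.cos y.1 : ℂ) := by
    simp only [o1, o2, pol2, Prod.fst_add, Prod.smul_fst, Complex.real_smul]
    push_cast
    ring
  have g2 : (σ • o1 a (pol2 y) + τ • o2 b (pol2 y)).1.2 =
      Complex.exp (y.2.2.1 * Complex.I) * (Complex.I * (σ * Real.sin y.1 : ℂ)) := by
    simp only [o1, o2, pol2, Prod.fst_add, Prod.smul_fst, Prod.snd_add, Prod.smul_snd,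
      Complex.real_smul]
    ring
  have g3 : (σ • o1 a (pol2 y) + τ • o2 b (pol2 y)).2.1 =
      Complex.I * ((σ * a + τ : ℝ) * Real.cos y.2.1 : ℂ) := by
    simp only [o1, o2, pol2, Prod.fst_add, Prod.smul_fst, Prod.snd_add, Prod.smul_snd,
      Complex.real_smul]
    push_cast
    ring
  have g4 : (σ • o1 a (pol2 y) + τ • o2 b (pol2 y)).2.2 =
      Complex.exp (y.2.2.2 * Complex.I) * (Complex.I * (τ * Real.sin y.2.1 : ℂ)) := by
    simp only [o1, o2, pol2, Prod.snd_add, Prod.smul_snd, Complex.real_smul]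
    ring
  rw [g1] at h1
  rw [g2] at h2
  rw [g3] at h3
  rw [g4] at h4
  have k1 := congrArg Complex.re h1
  have k2 := congrArg Complex.re (mul_left_cancel₀ e1 h2)
  have k3 := congrArg Complex.re h3
  have k4 := congrArg Complex.re (mul_left_cancel₀ e2 h4)
  simp [-Complex.ofReal_sin, -Complex.ofReal_cos] at k1 k2 k3 k4
  apply huv
  constructor
  · by_contra hu
    have e1 := k1.resolve_right hu
    have e2 := k2.resolve_right hu
    have e3 := Real.sin_sq_add_cos_sq y.1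
    rw [e1, e2] at e3
    norm_num at e3
  · by_contra hu
    have e1 := k3.resolve_right hu
    have e2 := k4.resolve_right hu
    have e3 := Real.sin_sq_add_cos_sq y.2.1
    rw [e1, e2] at e3
    norm_num at e3

end

end Pool.Agent.Helper34.SW
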